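import Pool.Agent.ROT.MainC

/-!
# MP_bd0985_co: unique optimal matchings when `B` is in convex position

For every `A` and every `B` that is in convex position after removal of `d` points,
the number of unique optimal translated matchings is at most `2^d (1 + 8 m² (n-m)²)`.
-/

set_option autoImplicit false

namespace Pool.Agent.Results.MP_bd0985_co.ConvexPosition

/-- Let `m ≤ n`, let `A` be a list of `m` points and `B` a list of `n` points of the plane, and let
`E` be a set of indices such that the points `B j`, `j ∉ E`, are in convex position (distinct, and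
none is in the convex hull of others).  Then at most `2 ^ |E| * (1 + 8 m² (n-m)²)` injective maps
are the strict unique least-squares matching for some translate of `B`. -/
theorem result (m n : ℕ) (hmn : m ≤ n) (A : Fin m → EuclideanSpace ℝ (Fin 2))
    (B : Fin n → EuclideanSpace ℝ (Fin 2)) (E : Finset (Fin n))
    (hE : ConvexIndependent ℝ (fun j : {j // j ∉ E} => B j)) :
    ({π : Fin m ↪ Fin n | ∃ t : EuclideanSpace ℝ (Fin 2),
        ∀ σ : Fin m ↪ Fin n, σ ≠ π →
          ∑ i, ‖A i - (B (π i) + t)‖ ^ 2 < ∑ i, ‖A i - (B (σ i) + t)‖ ^ 2}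
        : Set (Fin m ↪ Fin n)).ncard ≤ 2 ^ E.card * (1 + 8 * m ^ 2 * (n - m) ^ 2) :=
  ROT.conv_main hmn A B E hE

end Pool.Agent.Results.MP_bd0985_co.ConvexPosition
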