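import Pool.Agent.H63.SY.FormD

/-!
# MP_bd0985_co: unique optimal matchings when `B` has no small nondegenerate triangles

The number of unique optimal translated matchings is polynomial in `n` and in
(diameter of `B`)² / (least area of the nondegenerate triangles of `B`), for every `A`; in
particular it is polynomial in `n` and `L` if `B` consists of integer points of a square of
side `L`.  Collinear triples and repeated points are allowed.  Instead of `B` itself one may use
for the second quantity any point set `B'` with the same slope type.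
-/

set_option autoImplicit false

namespace Pool.Agent.Results.MP_bd0985_co.NoSmallTriangles2

/-- The cross product of the vectors `q - p` and `s - r`. -/
def cross (p q r s : EuclideanSpace ℝ (Fin 2)) : ℝ :=
  (q 0 - p 0) * (s 1 - r 1) - (q 1 - p 1) * (s 0 - r 0)

/-- Let `A` be a list of `m` points, `B` and `B'` lists of `n` points of the plane, `E` a set of
exceptional indices, `0 < δ ≤ D²`.  Suppose that for the indices outside of `E`: the points of
`B'` have mutual distances at most `D`; every (nondegenerate) counterclockwise triangle of `B`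
corresponds to a counterclockwise triangle of `B'` with twice its area at least `δ`;
and whenever the direction of `B k → B l` is counterclockwise from that of `B i → B j` (four
different indices), this holds weakly for `B'`.  (For `B' = B` the conditions say: all
nondegenerate triangles have twice their area `≥ δ` and all distances are `≤ D`.)  Then at most
`2 ^ |E| * (1 + 3 (n² (n m + 1) m² D²/δ)²)` injective maps are the strict unique least-squares
matching for some translate of `B`. -/
theorem result (m n : ℕ) (A : Fin m → EuclideanSpace ℝ (Fin 2))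
    (B B' : Fin n → EuclideanSpace ℝ (Fin 2)) (E : Finset (Fin n)) (δ D : ℝ) (hδ : 0 < δ)
    (hδD : δ ≤ D ^ 2) (hD : ∀ i ∉ E, ∀ j ∉ E, dist (B' i) (B' j) ≤ D)
    (hT : ∀ i ∉ E, ∀ j ∉ E, ∀ k ∉ E, 0 < cross (B i) (B j) (B i) (B k) →
      δ ≤ cross (B' i) (B' j) (B' i) (B' k))
    (hP : ∀ i ∉ E, ∀ j ∉ E, ∀ k ∉ E, ∀ l ∉ E, i ≠ j → i ≠ k → i ≠ l → j ≠ k → j ≠ l → k ≠ l →
      0 < cross (B i) (B j) (B k) (B l) → 0 ≤ cross (B' i) (B' j) (B' k) (B' l)) :
    (({π : Fin m ↪ Fin n | ∃ t : EuclideanSpace ℝ (Fin 2),
        ∀ σ : Fin m ↪ Fin n, σ ≠ π →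
          ∑ i, ‖A i - (B (π i) + t)‖ ^ 2 < ∑ i, ‖A i - (B (σ i) + t)‖ ^ 2}
        : Set (Fin m ↪ Fin n)).ncard : ℝ) ≤
      2 ^ E.card *
        (1 + 3 * ((n : ℝ) ^ 2 * ((n : ℝ) * m + 1) * (m : ℝ) ^ 2 * (D ^ 2 / δ)) ^ 2) :=
  ROT.slope_main' A B B' E hδ hδD hD hT hP

end Pool.Agent.Results.MP_bd0985_co.NoSmallTriangles2
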