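import Pool.Agent.H63.RQ.Bound

/-!
# MP_bd0985_co: a quasi-polynomial bound for all point sets

For all lists `A`, `B` of points of the plane the number of unique optimal translated matchings is
at most `n⁴ exp(O(log⁴ m))`.
-/

set_option autoImplicit false

namespace Pool.Agent.Results.MP_bd0985_co.QuasiPolynomial

/-- Let `1 ≤ m ≤ n`, let `A` be a list of `m` points and `B` a list of `n` points of the plane.
The number of injective maps that are the strict unique least-squares matching for some translate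
of `B` is at most `n⁴ exp (4000 (1 + log m)⁴)`. -/
theorem result (m n : ℕ) (h1 : 1 ≤ m) (h2 : m ≤ n) (A : Fin m → EuclideanSpace ℝ (Fin 2))
    (B : Fin n → EuclideanSpace ℝ (Fin 2)) :
    (({π : Fin m ↪ Fin n | ∃ t : EuclideanSpace ℝ (Fin 2),
        ∀ σ : Fin m ↪ Fin n, σ ≠ π →
          ∑ i, ‖A i - (B (π i) + t)‖ ^ 2 < ∑ i, ‖A i - (B (σ i) + t)‖ ^ 2}
        : Set (Fin m ↪ Fin n)).ncard : ℝ) ≤
      (n : ℝ) ^ 4 * Real.exp (4000 * (1 + Real.log m) ^ 4) :=
  H63.RQ.main h1 h2 A B

end Pool.Agent.Results.MP_bd0985_co.QuasiPolynomial
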