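import Pool.Agent.ROT.MainR

/-!
# MP_bd0985_co: random point sets `B`, all `A` simultaneously

If the points of `B` are independent, with densities bounded by `K` and supported in a disc of
radius `R` (for example uniform in a disc, or small random perturbations of arbitrary points),
then with probability at least `1 - ε` the number of unique optimal translated
matchings is polynomial in `n`, `K R²`, `1/ε`, for all `A` with at most `n` points.
-/

set_option autoImplicit false

open MeasureTheory

namespace Pool.Agent.Results.MP_bd0985_co.RandomPoints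

/-- Let `ν j` (`j < n`) be probability measures on the plane with `ν j s ≤ K * volume s` for all
sets `s` and with support in the disc of radius `R` around the origin, and let `0 < ε ≤ 1`.  Let `B`
be a random list of `n` independent points with laws `ν j`.  Then, except with probability at most
`ε`, the following holds simultaneously for all `m ≤ n` and all lists `A` of `m` points: at most
`1 + 3 (256 n⁸ m² (K R²)² / ε²)²` injective maps are the strict unique least-squares
matching for some translate of `B`. -/
theorem result (n : ℕ) (ν : Fin n → Measure (EuclideanSpace ℝ (Fin 2)))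
    [∀ j, IsProbabilityMeasure (ν j)] (K R : ℝ) (hK : 0 ≤ K) (hR : 0 ≤ R)
    (hν : ∀ j s, ν j s ≤ ENNReal.ofReal K * volume s)
    (hsupp : ∀ j, ν j (Metric.closedBall 0 R)ᶜ = 0) (ε : ℝ) (hε : 0 < ε) (hε1 : ε ≤ 1) :
    Measure.pi ν {B | ∃ m : ℕ, m ≤ n ∧ ∃ A : Fin m → EuclideanSpace ℝ (Fin 2),
      1 + 3 * (256 * (n : ℝ) ^ 8 * (m : ℝ) ^ 2 * (K * R ^ 2) ^ 2 / ε ^ 2) ^ 2 <
        (({π : Fin m ↪ Fin n | ∃ t : EuclideanSpace ℝ (Fin 2),
          ∀ σ : Fin m ↪ Fin n, σ ≠ π →
            ∑ i, ‖A i - (B (π i) + t)‖ ^ 2 < ∑ i, ‖A i - (B (σ i) + t)‖ ^ 2}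
          : Set (Fin m ↪ Fin n)).ncard : ℝ)} ≤ ENNReal.ofReal ε :=
  ROT.random_main ν hK hR hν hsupp hε hε1

end Pool.Agent.Results.MP_bd0985_co.RandomPoints
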